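import Pool.Agent.L5helper3.IsoGame.Mermin

/-!
# Isomorphism game algebras do not always embed into group C*-algebras of solution groups

The trivial representation of a group `Γ` gives a homomorphism `C*(Γ) → ℂ`. If the isomorphism game
algebra `A(G, H)` has a unital *-homomorphism (injective or not) to the full group C*-algebra of a
solution group, then it has a unital *-homomorphism to `ℂ`, and the images of the projections
`p_gh` are the entries of a permutation matrix, which is an isomorphism of `G` and `H`. Hence
`A(G, H)` has a unital *-homomorphism to the full group C*-algebra of some (or every) solution group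
if and only if `G` and `H` are isomorphic.

For the magic square (Mermin, Peres; the graphs are those of Atserias, Mančinska, Roberson, Šámal,
Severini, Varvitsiotis, with 24 vertices) `G` and `H` are not isomorphic, but `A(G, H) ≠ 0`, since it
has a representation by `4 × 4` matrices. So the answer to the question is negative.

(The paper proof was communicated by helper64. The existence of the universal C*-algebras is proved
in `Univ` after the starting module `Y512.FGC.Exist`.)
-/

set_option autoImplicit false

namespace Pool.Agent.Results.MP_3b70de_al.NoEmbedding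

open Pool.Agent.L5helper3.IsoGame

/-- The relations of the solution group of the binary linear system `M x = b`, in the free group on
the generators `g_i = of (some i)` and `J = of none`. -/
def solRels {m n : ℕ} (M : Matrix (Fin m) (Fin n) (ZMod 2)) (b : Fin m → ZMod 2) :
    Set (FreeGroup (Option (Fin n))) :=
  {FreeGroup.of none ^ 2} ∪
  {x | ∃ i : Fin n, x = FreeGroup.of (some i) ^ 2} ∪
  {x | ∃ i : Fin n, x = FreeGroup.of none * FreeGroup.of (some i) *
    (FreeGroup.of (some i) * FreeGroup.of none)⁻¹} ∪
  {x | ∃ (k : Fin m) (i j : Fin n), M k i = 1 ∧ M k j = 1 ∧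
    x = FreeGroup.of (some i) * FreeGroup.of (some j) *
      (FreeGroup.of (some j) * FreeGroup.of (some i))⁻¹} ∪
  {x | ∃ k : Fin m, x = (List.ofFn fun i : Fin n => FreeGroup.of (some i) ^ (M k i).val).prod *
    (FreeGroup.of none ^ (b k).val)⁻¹}

/-- The solution group `Γ(M, b)`. -/
abbrev SolutionGroup {m n : ℕ} (M : Matrix (Fin m) (Fin n) (ZMod 2)) (b : Fin m → ZMod 2) : Type :=
  PresentedGroup (solRels M b)

/-- **Main result.** -/
theorem result :
    (∀ (V W : Type) [Fintype V] [Fintype W] (G : SimpleGraph V) (H : SimpleGraph W)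
      (A : Type) [CStarAlgebra A] (p : V → W → A), IsGameAlgebra G H A p →
      ∀ (m n : ℕ) (M : Matrix (Fin m) (Fin n) (ZMod 2)) (b : Fin m → ZMod 2)
        (C : Type) [CStarAlgebra C] (u : SolutionGroup M b →* unitary C),
        IsFullGroupCStar (SolutionGroup M b) C u →
        (Nonempty (A →⋆ₐ[ℂ] C) ↔ Nonempty (G ≃g H))) ∧
    ∃ (V W : Type) (_ : Fintype V) (_ : Fintype W) (G : SimpleGraph V) (H : SimpleGraph W)
      (A : Type) (_ : CStarAlgebra A) (p : V → W → A),
      IsGameAlgebra G H A p ∧ Nontrivial A ∧
      Nonempty (A →⋆ₐ[ℂ] Matrix (Fin 4) (Fin 4) ℂ) ∧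
      ∀ (m n : ℕ) (M : Matrix (Fin m) (Fin n) (ZMod 2)) (b : Fin m → ZMod 2),
        (∃ (C : Type) (_ : CStarAlgebra C) (u : SolutionGroup M b →* unitary C),
          IsFullGroupCStar (SolutionGroup M b) C u) ∧
        ∀ (C : Type) [CStarAlgebra C] (u : SolutionGroup M b →* unitary C),
          IsFullGroupCStar (SolutionGroup M b) C u →
          ¬ ∃ φ : A →⋆ₐ[ℂ] C, Function.Injective φ := by
  classical
  refine ⟨?_, ?_⟩
  · intro V W _ _ G H A _ p hA m n M b C _ u hC
    obtain ⟨χ⟩ := exists_character hC
    exact hom_iff G H hA χ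
  · obtain ⟨q, hq⟩ := exists_matrix4
    open scoped Matrix.Norms.L2Operator in
    obtain ⟨A, iA, p, hA⟩ := exists_gameAlgebra (sqGraph rhs) (sqGraph fun _ => 0) q hq
    open scoped Matrix.Norms.L2Operator in
    obtain ⟨φ, -, -⟩ := hA.univ (Matrix (Fin 4) (Fin 4) ℂ) q hq
    refine ⟨_, _, inferInstance, inferInstance, _, _, A, iA, p, hA, ?_, ⟨φ⟩, ?_⟩
    · refine ⟨0, 1, fun h => ?_⟩
      have h1 := congrArg φ h
      rw [map_zero, map_one] at h1
      exact zero_ne_one h1
    · intro m n M b
      refine ⟨exists_fullGroup _, ?_⟩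
      rintro C _ u hC ⟨ψ, -⟩
      obtain ⟨χ⟩ := exists_character hC
      exact not_iso.false ((hom_iff _ _ hA χ).1 ⟨ψ⟩).some

end Pool.Agent.Results.MP_3b70de_al.NoEmbedding
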